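import Mathlib

/-!
MP_9999b5_co, linear range.  Interface: definitions and block statements.
Everything is counted over finite sets of k-subsets, no probability theory.
-/

set_option autoImplicit false

namespace Pool.Agent.Work.MaxSums

open Finset

/-- number of `k`-subsets of `A` with positive `x`-sum -/
noncomputable def pos {ι : Type} [DecidableEq ι] (x : ι → ℝ) (A : Finset ι) (k : ℕ) : ℕ :=
  ((A.powersetCard k).filter (fun S => 0 < ∑ i ∈ S, x i)).card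

/-- number of `j`-subsets of `A` with `x`-sum greater than `-1` -/
noncomputable def above {ι : Type} [DecidableEq ι] (x : ι → ℝ) (A : Finset ι) (j : ℕ) : ℕ :=
  ((A.powersetCard j).filter (fun U => -1 < ∑ i ∈ U, x i)).card

/-- number of pairs `(S, U)`, `S` a `k`-subset of `R` with positive sum, `U` a
`(k-1)`-subset of `R \ S` with sum greater than `-1` -/
noncomputable def pairs {ι : Type} [DecidableEq ι] (x : ι → ℝ) (R : Finset ι) (k : ℕ) : ℕ :=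
  ∑ S ∈ (R.powersetCard k).filter (fun S => 0 < ∑ i ∈ S, x i), above x (R \ S) (k - 1)

/-! ### Basic blocks -/

/-- B1: mean of a linear statistic over the `j`-subsets. -/
def SumLin : Prop := ∀ (ι : Type) [DecidableEq ι] (A : Finset ι) (j : ℕ) (g : ι → ℝ),
  (A.card : ℝ) * ∑ S ∈ A.powersetCard j, ∑ i ∈ S, g i
    = (j : ℝ) * (A.card.choose j : ℝ) * ∑ i ∈ A, g i

/-- B2: second moment of a linear statistic over the `j`-subsets. -/
def SumSq : Prop := ∀ (ι : Type) [DecidableEq ι] (A : Finset ι) (j : ℕ) (g : ι → ℝ),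
  (A.card : ℝ) * (A.card - 1) * ∑ S ∈ A.powersetCard j, (∑ i ∈ S, g i) ^ 2
    = (A.card.choose j : ℝ) * ((j : ℝ) * (A.card - j) * ∑ i ∈ A, g i ^ 2
        + (j : ℝ) * (j - 1) * (∑ i ∈ A, g i) ^ 2)

/-- B3: exchange identity. -/
def Exchange : Prop := ∀ (ι : Type) [DecidableEq ι] (B : Finset ι) (k : ℕ)
    (Φ : Finset ι → ι → ι → ℝ),
  ∑ S ∈ B.powersetCard k, ∑ s ∈ S, ∑ w ∈ B \ S, Φ S s w
    = ∑ S ∈ B.powersetCard k, ∑ s ∈ S, ∑ w ∈ B \ S, Φ (insert w (S.erase s)) w s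

/-- B4: exchanging `i`-subsets of two disjoint sets. -/
def Swap : Prop := ∀ (ι : Type) [DecidableEq ι] (R : Finset ι) (k l i : ℕ)
    (Φ : Finset ι → Finset ι → ℝ),
  ∑ S ∈ R.powersetCard k, ∑ U ∈ (R \ S).powersetCard l,
      ∑ W ∈ S.powersetCard i, ∑ V ∈ U.powersetCard i, Φ ((S \ W) ∪ V) ((U \ V) ∪ W)
    = (k.choose i : ℝ) * (l.choose i : ℝ) *
      ∑ S ∈ R.powersetCard k, ∑ U ∈ (R \ S).powersetCard l, Φ S U

/-- B5: Cauchy-Schwarz / Paley-Zygmund. -/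
def PZ : Prop := ∀ (α : Type) (s : Finset α) (Y : α → ℝ), 0 ≤ ∑ a ∈ s, Y a →
  (∑ a ∈ s, Y a) ^ 2 ≤ ((s.filter (fun a => 0 < Y a)).card : ℝ) * ∑ a ∈ s, Y a ^ 2

/-- B6: numbers of subsets avoiding few elements. -/
def Clean : Prop := ∀ (M o j : ℕ), o ≤ M →
  ((M : ℝ) - j * o) * (M.choose j : ℝ) ≤ (M : ℝ) * ((M - o).choose j : ℝ)

/-- B7: the `o` smallest elements. -/
def Outliers : Prop := ∀ (ι : Type) [DecidableEq ι] (R : Finset ι) (x : ι → ℝ) (o : ℕ),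
  o < R.card → -1 ≤ ∑ i ∈ R, x i →
  ∃ (O : Finset ι) (D : ℝ), O ⊆ R ∧ O.card = o ∧ 0 ≤ D ∧ (∀ i ∈ R \ O, -D ≤ x i) ∧
    (∀ a ∈ O, ∀ w ∈ R \ O, x a ≤ x w) ∧ -1 + (o : ℝ) * D ≤ ∑ i ∈ R \ O, x i

/-- B8: many `j`-subsets have sum `> -c`, if the mean is and the variance is bounded.
(Uses SumLin, SumSq, PZ.) -/
def PosProb : Prop := ∀ (ι : Type) [DecidableEq ι] (A : Finset ι) (j : ℕ) (g : ι → ℝ)
    (a c e v : ℝ), 0 < A.card → j ≤ A.card → 0 < e → 0 ≤ v →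
  e ≤ c + (j : ℝ) / A.card * ∑ i ∈ A, g i →
  (j : ℝ) / A.card * ∑ i ∈ A, (g i - a) ^ 2 ≤ v →
  e ^ 2 / (e ^ 2 + v) * (A.card.choose j : ℝ)
    ≤ (((A.powersetCard j).filter (fun S => 0 < c + ∑ i ∈ S, g i)).card : ℝ)

/-- B9: Chebyshev. (Uses SumLin, SumSq.) -/
def Cheb : Prop := ∀ (ι : Type) [DecidableEq ι] (A : Finset ι) (j : ℕ) (g : ι → ℝ)
    (r : ℝ), 0 < A.card → j ≤ A.card → 0 < r →
  (((A.powersetCard j).filter
      (fun S => r ≤ |∑ i ∈ S, g i - (j : ℝ) / A.card * ∑ i ∈ A, g i|)).card : ℝ) * r ^ 2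
    ≤ (A.card.choose j : ℝ) * ((j : ℝ) / A.card * ∑ i ∈ A, g i ^ 2)

/-- B10: fourth moment. (Uses SumLin, SumSq, Exchange.) -/
def Fourth : Prop := ∀ (ι : Type) [DecidableEq ι] (B : Finset ι) (k : ℕ) (z : ι → ℝ)
    (H V : ℝ), 0 < k → 2 * k ≤ B.card → 2 ≤ B.card → ∑ i ∈ B, z i = 0 →
  (∀ i ∈ B, |z i| ≤ H) → V * B.card = k * ∑ i ∈ B, z i ^ 2 →
  ∑ S ∈ B.powersetCard k, (∑ i ∈ S, z i) ^ 4
    ≤ (B.card.choose k : ℝ) * (15 * V ^ 2 + 9 * H ^ 2 * V)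

/-- B11: anti-concentration. (Uses SumLin, SumSq, Fourth.) -/
def Anti : Prop := ∀ (ι : Type) [DecidableEq ι] (B : Finset ι) (k : ℕ) (z : ι → ℝ)
    (H V t : ℝ), 0 < k → 20 * k ≤ B.card → ∑ i ∈ B, z i = 0 →
  (∀ i ∈ B, |z i| ≤ H) → V * B.card = k * ∑ i ∈ B, z i ^ 2 →
  9 * H ^ 2 ≤ V → 9 ≤ V → 0 ≤ t → t ≤ 1 / 20 →
  (B.card.choose k : ℝ) / 400
    ≤ (((B.powersetCard k).filter (fun S => t < ∑ i ∈ S, z i)).card : ℝ)

/-! ### Main blocks -/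

/-- C1: if few `k`-subsets of `B` have positive sum, then `B` is tame.
(Uses Anti, PosProb.) -/
def ClaimA : Prop := ∀ (ι : Type) [DecidableEq ι] (B : Finset ι) (x : ι → ℝ) (k : ℕ)
    (D : ℝ), 0 < k → 20 * k ≤ B.card → 0 ≤ D → (∀ i ∈ B, -D ≤ x i ∧ x i ≤ 1) →
  -1 + (B.card : ℝ) / (4 * k) * D ≤ ∑ i ∈ B, x i →
  901 * pos x B k < B.card.choose k →
  D < 1 ∧ (k : ℝ) * ∑ i ∈ B, x i ≤ B.card / 4 ∧
    (k : ℝ) * ∑ i ∈ B, x i ^ 2 ≤ 37 * B.card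

/-- The situation which remains after `ClaimA`: `R` is the set of indices without the
maximum, `O` the outliers. -/
structure Tame {ι : Type} [DecidableEq ι] (R O : Finset ι) (x : ι → ℝ) (k : ℕ) : Prop where
  hk : 2 ≤ k
  sub : O ⊆ R
  ord : ∀ a ∈ O, ∀ w ∈ R \ O, x a ≤ x w
  abs_le : ∀ i ∈ R \ O, |x i| ≤ 1
  sum_ge : -1 ≤ ∑ i ∈ R \ O, x i
  sum_le : (k : ℝ) * ∑ i ∈ R \ O, x i ≤ ((R \ O).card : ℝ) / 4
  sq_le : (k : ℝ) * ∑ i ∈ R \ O, x i ^ 2 ≤ 37 * ((R \ O).card : ℝ)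
  card_ge : 20 * k ≤ (R \ O).card
  out_le : 10 * (k * O.card) ≤ 3 * R.card

/-- C2: many `(k-1)`-subsets have sum `> -1`.  (Uses PosProb, Clean.) -/
def StarDeg : Prop := ∀ (ι : Type) [DecidableEq ι] (R O : Finset ι) (x : ι → ℝ) (k : ℕ),
  Tame R O x k → R.card.choose (k - 1) ≤ 64 * above x R (k - 1)

/-- C3: the same in the complement of `S`, if the sum of `S` is at most `100`.
(Uses PosProb, Clean.) -/
def StarDegS : Prop := ∀ (ι : Type) [DecidableEq ι] (R O S : Finset ι) (x : ι → ℝ) (k : ℕ),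
  Tame R O x k → 100000 * k ≤ (R \ O).card → S ⊆ R \ O → S.card = k →
  ∑ i ∈ S, x i ≤ 100 →
  (R.card - k).choose (k - 1) ≤ 300 * above x (R \ S) (k - 1)

/-- C4: most positive sets contain no outlier. -/
def MostClean : Prop := ∀ (ι : Type) [DecidableEq ι] (R O : Finset ι) (x : ι → ℝ) (k : ℕ),
  O ⊆ R → (∀ a ∈ O, ∀ w ∈ R \ O, x a ≤ x w) → k < (R \ O).card →
  10 * (k * O.card) ≤ 3 * ((R \ O).card - k) →
  7 * pos x R k ≤ 10 * pos x (R \ O) k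

/-- C5: few positive sets of large sum have a large sum of squares. (Uses Exchange.) -/
def FewWild : Prop := ∀ (ι : Type) [DecidableEq ι] (B : Finset ι) (x : ι → ℝ) (k : ℕ)
    (K q : ℝ), 2 ≤ K → k ≤ B.card → (∀ i ∈ B, |x i| ≤ 1) →
  (((B.powersetCard k).filter
      (fun S => K < ∑ i ∈ S, x i ∧ q < ∑ i ∈ S, x i ^ 2)).card : ℝ) * q * (B.card - k)
    ≤ (pos x B k : ℝ) * (k * ∑ i ∈ B, x i ^ 2)

/-- C6: repartition of `S ∪ U`, for `S` of large sum and small sum of squares.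
(Uses Cheb, Clean.) -/
def Repart : Prop := ∀ (ι : Type) [DecidableEq ι] (R O S : Finset ι) (x : ι → ℝ) (k : ℕ),
  Tame R O x k → 100000 * k ≤ (R \ O).card → S ⊆ R \ O → S.card = k →
  100 < ∑ i ∈ S, x i → ∑ i ∈ S, x i ^ 2 ≤ 152 →
  (R.card - k).choose (k - 1) * k.choose (k / 2) * (k - 1).choose (k / 2) ≤
    20 * ∑ U ∈ (R \ S).powersetCard (k - 1), ∑ W ∈ S.powersetCard (k / 2),
      ((U.powersetCard (k / 2)).filter (fun V =>
        0 < ∑ i ∈ (S \ W) ∪ V, x i ∧ -1 < ∑ i ∈ (U \ V) ∪ W, x i)).card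

/-- C7: the gain. (Uses Swap, StarDegS, MostClean, FewWild, Repart.) -/
def Gain : Prop := ∀ (ι : Type) [DecidableEq ι] (R O : Finset ι) (x : ι → ℝ) (k : ℕ),
  Tame R O x k → 100000 * k ≤ (R \ O).card →
  10 * (k * O.card) ≤ 3 * ((R \ O).card - k) →
  pos x R k * (R.card - k).choose (k - 1) ≤ 625 * pairs x R k

/-- `W k n φ`: a fraction `φ` of all `k`-subsets is positive, for `n` distinct reals with
nonnegative sum. -/
def W (k n : ℕ) (φ : ℝ) : Prop := ∀ (ι : Type) [DecidableEq ι] (A : Finset ι) (x : ι → ℝ),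
  A.card = n → Set.InjOn x A → 0 ≤ ∑ i ∈ A, x i → φ * (n.choose k : ℝ) ≤ pos x A k

/-- D1: recursion. -/
def Recursion : Prop := ∀ (k n : ℕ) (φ : ℝ), k ≤ n → 0 ≤ φ → W k n φ →
  W k (n + k) (φ / (1 + φ))

/-- D2: the pairs `(T, S)` with `T` containing the maximum `a`, `x a = 1`. -/
def Double : Prop := ∀ (ι : Type) [DecidableEq ι] (A : Finset ι) (a : ι) (x : ι → ℝ)
    (k n : ℕ) (φ : ℝ), 2 ≤ k → A.card = n + k → 2 * k ≤ n → a ∈ A → x a = 1 →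
  Set.InjOn x A → 0 ≤ ∑ i ∈ A, x i → W k n φ →
  (((A.erase a).card.choose (k - 1) : ℝ) - above x (A.erase a) (k - 1)) * φ *
      (n.choose k : ℝ) + pairs x (A.erase a) k
    ≤ (pos x (A.erase a) k : ℝ) * ((n - 1).choose (k - 1) : ℝ)

/-- D3: splitting the positive sets by the maximum. -/
def Split : Prop := ∀ (ι : Type) [DecidableEq ι] (A : Finset ι) (a : ι) (x : ι → ℝ)
    (k : ℕ), 1 ≤ k → a ∈ A → x a = 1 →
  pos x A k = pos x (A.erase a) k + above x (A.erase a) (k - 1)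

end Pool.Agent.Work.MaxSums
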